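import Mathlib

/-!
# A determinantal inequality (Johnson and Newman, weak form)

If for every row `i` of a real `n × n` matrix the sum of the positive entries and the sum of the
absolute values of the negative entries are at most `M i`, then `|det A| ≤ ∏ M i`.
-/

set_option autoImplicit false

open Finset

namespace Pool.Agent.R944.Tysz

theorem abs_det_le_one : ∀ (n : ℕ) (A : Matrix (Fin n) (Fin n) ℤ),
    (∀ i, ∑ j, max (A i j) 0 ≤ 1) → (∀ i, ∑ j, max (-A i j) 0 ≤ 1) → |A.det| ≤ 1
  | 0, A, _, _ => by simp
  | n + 1, A, hP, hN => by
    by_cases h : ∀ i, ∑ j, A i j = 0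
    · have h0 : A.det = 0 := by
        apply Matrix.exists_mulVec_eq_zero_iff.1
        refine ⟨fun _ => 1, ?_, ?_⟩
        · intro hc
          have := congrFun hc 0
          simp at this
        · funext i
          simp [Matrix.mulVec, dotProduct, h i]
      rw [h0]; simp
    · push Not at h
      obtain ⟨i, hi⟩ := h
      have hP0 : 0 ≤ ∑ j, max (A i j) 0 := Finset.sum_nonneg fun j _ => le_max_right _ _
      have hN0 : 0 ≤ ∑ j, max (-A i j) 0 := Finset.sum_nonneg fun j _ => le_max_right _ _
      have hd : ∑ j, A i j = ∑ j, max (A i j) 0 - ∑ j, max (-A i j) 0 := by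
        rw [← Finset.sum_sub_distrib]
        refine Finset.sum_congr rfl fun j _ => ?_
        rcases le_total (A i j) 0 with h1 | h1
        · rw [max_eq_right h1, max_eq_left (by linarith)]; ring
        · rw [max_eq_left h1, max_eq_right (by linarith)]; ring
      have ha : ∑ j, |A i j| = ∑ j, max (A i j) 0 + ∑ j, max (-A i j) 0 := by
        rw [← Finset.sum_add_distrib]
        refine Finset.sum_congr rfl fun j _ => ?_
        rcases le_total (A i j) 0 with h1 | h1
        · rw [max_eq_right h1, max_eq_left (by linarith), abs_of_nonpos h1]; ring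
        · rw [max_eq_left h1, max_eq_right (by linarith), abs_of_nonneg h1]; ring
      have h1 := hP i
      have h2 := hN i
      have ha1 : ∑ j, |A i j| ≤ 1 := by
        rw [ha]
        rw [hd] at hi
        omega
      rw [Matrix.det_succ_row A i]
      calc |∑ j : Fin (n + 1), (-1) ^ ((i : ℕ) + (j : ℕ)) * A i j *
              (A.submatrix i.succAbove j.succAbove).det|
          ≤ ∑ j : Fin (n + 1), |(-1) ^ ((i : ℕ) + (j : ℕ)) * A i j *
              (A.submatrix i.succAbove j.succAbove).det| := Finset.abs_sum_le_sum_abs _ _
        _ ≤ ∑ j : Fin (n + 1), |A i j| := by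
            refine Finset.sum_le_sum fun j _ => ?_
            rw [abs_mul, abs_mul, abs_pow, abs_neg, abs_one, one_pow, one_mul]
            have hm : |(A.submatrix i.succAbove j.succAbove).det| ≤ 1 := by
              apply abs_det_le_one n
              · intro i'
                have := hP (i.succAbove i')
                rw [Fin.sum_univ_succAbove _ j] at this
                have h3 : 0 ≤ max (A (i.succAbove i') j) 0 := le_max_right _ _
                simp only [Matrix.submatrix_apply]
                linarith
              · intro i'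
                have := hN (i.succAbove i')
                rw [Fin.sum_univ_succAbove _ j] at this
                have h3 : 0 ≤ max (-A (i.succAbove i') j) 0 := le_max_right _ _
                simp only [Matrix.submatrix_apply]
                linarith
            calc |A i j| * |(A.submatrix i.succAbove j.succAbove).det|
                ≤ |A i j| * 1 := mul_le_mul_of_nonneg_left hm (abs_nonneg _)
              _ = |A i j| := mul_one _
        _ ≤ 1 := ha1

/-- difference of two coordinate vectors (or zero vectors) -/
def vZ {n : ℕ} (p : Option (Fin n) × Option (Fin n)) (c : Fin n) : ℤ :=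
  (if p.1 = some c then 1 else 0) - (if p.2 = some c then 1 else 0)

theorem sum_ind_le {n : ℕ} (o : Option (Fin n)) : ∑ c : Fin n, (if o = some c then (1 : ℤ) else 0) ≤ 1 := by
  rcases o with _ | d
  · simp
  · simp

theorem abs_det_vZ {n : ℕ} (f : Fin n → Option (Fin n) × Option (Fin n)) :
    |(Matrix.of fun i => vZ (f i)).det| ≤ 1 := by
  apply abs_det_le_one
  · intro i
    refine le_trans (Finset.sum_le_sum (g := fun c => if (f i).1 = some c then (1 : ℤ) else 0)
      fun c _ => ?_) (sum_ind_le _)
    simp only [Matrix.of_apply, vZ]
    split_ifs <;> simp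
  · intro i
    refine le_trans (Finset.sum_le_sum (g := fun c => if (f i).2 = some c then (1 : ℤ) else 0)
      fun c _ => ?_) (sum_ind_le _)
    simp only [Matrix.of_apply, vZ]
    split_ifs <;> simp

/-- The determinantal inequality. -/
theorem abs_det_le_prod {n : ℕ} (A : Matrix (Fin n) (Fin n) ℝ) (M : Fin n → ℝ)
    (hP : ∀ i, ∑ j, max (A i j) 0 ≤ M i) (hN : ∀ i, ∑ j, max (-A i j) 0 ≤ M i) :
    |A.det| ≤ ∏ i, M i := by
  have hM0 : ∀ i, 0 ≤ M i := fun i =>
    le_trans (Finset.sum_nonneg fun j _ => le_max_right _ _) (hP i)
  by_cases hM : ∃ i, M i = 0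
  · obtain ⟨i, hi⟩ := hM
    have hz : ∀ j, A i j = 0 := by
      intro j
      have h1 : max (A i j) 0 ≤ 0 := by
        have := Finset.single_le_sum (f := fun j => max (A i j) 0)
          (fun j _ => le_max_right _ _) (Finset.mem_univ j)
        have h2 := hP i
        linarith
      have h2 : max (-A i j) 0 ≤ 0 := by
        have := Finset.single_le_sum (f := fun j => max (-A i j) 0)
          (fun j _ => le_max_right _ _) (Finset.mem_univ j)
        have h2 := hN i
        linarith
      have h3 := le_max_left (A i j) 0
      have h4 := le_max_left (-A i j) 0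
      linarith
    rw [Matrix.det_eq_zero_of_row_eq_zero i hz]
    simp only [abs_zero]
    exact Finset.prod_nonneg fun i _ => hM0 i
  · push Not at hM
    set p : Fin n → Option (Fin n) → ℝ := fun i o =>
      match o with
      | none => M i - ∑ j, max (A i j) 0
      | some j => max (A i j) 0 with hp
    set q : Fin n → Option (Fin n) → ℝ := fun i o =>
      match o with
      | none => M i - ∑ j, max (-A i j) 0
      | some j => max (-A i j) 0 with hq
    have hp0 : ∀ i o, 0 ≤ p i o := by
      intro i o
      rcases o with _ | j
      · simp only [hp]; linarith [hP i]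
      · simp only [hp]; exact le_max_right _ _
    have hq0 : ∀ i o, 0 ≤ q i o := by
      intro i o
      rcases o with _ | j
      · simp only [hq]; linarith [hN i]
      · simp only [hq]; exact le_max_right _ _
    have hps : ∀ i, ∑ o, p i o = M i := by
      intro i
      rw [Fintype.sum_option]; simp only [hp]; ring
    have hqs : ∀ i, ∑ o, q i o = M i := by
      intro i
      rw [Fintype.sum_option]; simp only [hq]; ring
    set w : Fin n → Option (Fin n) × Option (Fin n) → ℝ := fun i o => p i o.1 * q i o.2 / M i
      with hw
    have hw0 : ∀ i o, 0 ≤ w i o := fun i o =>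
      div_nonneg (mul_nonneg (hp0 i _) (hq0 i _)) (hM0 i)
    have hws : ∀ i, ∑ o, w i o = M i := by
      intro i
      simp only [hw]
      rw [← Finset.sum_div, Fintype.sum_prod_type]
      simp only
      simp_rw [← Finset.mul_sum]
      rw [← Finset.sum_mul, hps, hqs]
      field_simp [hM i]
    have hrow : ∀ i, A i = ∑ o, w i o • (fun c => ((vZ o c : ℤ) : ℝ)) := by
      intro i
      funext c
      rw [Finset.sum_apply]
      simp only [Pi.smul_apply, smul_eq_mul, hw, vZ, Int.cast_sub, Int.cast_ite, Int.cast_one,
        Int.cast_zero]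
      rw [Fintype.sum_prod_type]
      simp only [mul_sub, Finset.sum_sub_distrib]
      have e1 : ∑ x : Option (Fin n), ∑ y : Option (Fin n),
          p i x * q i y / M i * (if x = some c then (1 : ℝ) else 0) = p i (some c) := by
        rw [Finset.sum_eq_single (some c)]
        · simp only [if_true, mul_one]
          rw [← Finset.sum_div, ← Finset.mul_sum, hqs]
          field_simp [hM i]
        · intro b _ hb
          simp [hb]
        · intro h; exact absurd (Finset.mem_univ _) h
      have e2 : ∑ x : Option (Fin n), ∑ y : Option (Fin n),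
          p i x * q i y / M i * (if y = some c then (1 : ℝ) else 0) = q i (some c) := by
        rw [Finset.sum_comm, Finset.sum_eq_single (some c)]
        · simp only [if_true, mul_one]
          rw [← Finset.sum_div, ← Finset.sum_mul, hps]
          field_simp [hM i]
        · intro b _ hb
          simp [hb]
        · intro h; exact absurd (Finset.mem_univ _) h
      rw [e1, e2]
      simp only [hp, hq]
      rcases le_total (A i c) 0 with h1 | h1
      · rw [max_eq_right h1, max_eq_left (by linarith)]; ring
      · rw [max_eq_left h1, max_eq_right (by linarith)]; ring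
    have hdet : A.det = ∑ f : Fin n → Option (Fin n) × Option (Fin n),
        (∏ i, w i (f i)) * ((((Matrix.of fun i => vZ (f i)).det : ℤ)) : ℝ) := by
      have h1 : A.det = (Matrix.detRowAlternating (R := ℝ) (n := Fin n)).toMultilinearMap
          (fun i => ∑ o, w i o • (fun c => ((vZ o c : ℤ) : ℝ))) := by
        have : A = fun i => ∑ o, w i o • (fun c => ((vZ o c : ℤ) : ℝ)) := funext hrow
        conv_lhs => rw [this]
        rfl
      rw [h1, MultilinearMap.map_sum]
      refine Finset.sum_congr rfl fun f _ => ?_
      rw [MultilinearMap.map_smul_univ, smul_eq_mul]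
      congr 1
      have h2 : ((((Matrix.of fun i => vZ (f i)).det : ℤ)) : ℝ) =
          ((Matrix.of fun i => vZ (f i)).map (Int.castRingHom ℝ)).det := by
        rw [← RingHom.mapMatrix_apply, ← RingHom.map_det]
        rfl
      rw [h2]
      rfl
    rw [hdet]
    calc |∑ f : Fin n → Option (Fin n) × Option (Fin n),
          (∏ i, w i (f i)) * ((((Matrix.of fun i => vZ (f i)).det : ℤ)) : ℝ)|
        ≤ ∑ f : Fin n → Option (Fin n) × Option (Fin n),
          |(∏ i, w i (f i)) * ((((Matrix.of fun i => vZ (f i)).det : ℤ)) : ℝ)| :=
          Finset.abs_sum_le_sum_abs _ _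
      _ ≤ ∑ f : Fin n → Option (Fin n) × Option (Fin n), ∏ i, w i (f i) := by
          refine Finset.sum_le_sum fun f _ => ?_
          rw [abs_mul, abs_of_nonneg (Finset.prod_nonneg fun i _ => hw0 i _)]
          have h3 : |((((Matrix.of fun i => vZ (f i)).det : ℤ)) : ℝ)| ≤ 1 := by
            rw [← Int.cast_abs]
            exact_mod_cast abs_det_vZ f
          calc (∏ i, w i (f i)) * |((((Matrix.of fun i => vZ (f i)).det : ℤ)) : ℝ)|
              ≤ (∏ i, w i (f i)) * 1 :=
                mul_le_mul_of_nonneg_left h3 (Finset.prod_nonneg fun i _ => hw0 i _)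
            _ = _ := mul_one _
      _ = ∏ i, ∑ o, w i o := by
          rw [Finset.prod_univ_sum, Fintype.piFinset_univ]
      _ = ∏ i, M i := Finset.prod_congr rfl fun i _ => hws i

/-- The determinantal inequality for integer matrices. -/
theorem abs_det_le_prod_int {n : ℕ} (A : Matrix (Fin n) (Fin n) ℤ) (M : Fin n → ℤ)
    (hP : ∀ i, ∑ j, max (A i j) 0 ≤ M i) (hN : ∀ i, ∑ j, max (-A i j) 0 ≤ M i) :
    |A.det| ≤ ∏ i, M i := by
  have h := abs_det_le_prod (A.map (Int.castRingHom ℝ)) (fun i => ((M i : ℤ) : ℝ))
    (fun i => by
      have := hP i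
      have h1 : ((∑ j, max (A i j) 0 : ℤ) : ℝ) ≤ (M i : ℝ) := by exact_mod_cast this
      push_cast at h1
      simpa using h1)
    (fun i => by
      have := hN i
      have h1 : ((∑ j, max (-A i j) 0 : ℤ) : ℝ) ≤ (M i : ℝ) := by exact_mod_cast this
      push_cast at h1
      simpa using h1)
  rw [← RingHom.mapMatrix_apply, ← RingHom.map_det] at h
  have h2 : |((A.det : ℤ) : ℝ)| ≤ ∏ i, ((M i : ℤ) : ℝ) := h
  exact_mod_cast h2

end Pool.Agent.R944.Tysz
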