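import Pool.Agent.R944.Tysz.Pinv

/-!
# Existence of the Moore-Penrose pseudoinverse of a real matrix
-/

set_option autoImplicit false

open Matrix

namespace Pool.Agent.R944.Tysz

variable {n : ℕ}

theorem exists_sym_inverse (H : Matrix (Fin n) (Fin n) ℝ) (hH : Hᵀ = H) :
    ∃ G : Matrix (Fin n) (Fin n) ℝ, Gᵀ = G ∧ H * G * H = H ∧ G * H * G = G ∧ H * G = G * H := by
  have hA : H.IsHermitian := by
    rw [Matrix.IsHermitian, Matrix.conjTranspose_eq_transpose_of_trivial, hH]
  set U : Matrix (Fin n) (Fin n) ℝ := (hA.eigenvectorUnitary : Matrix (Fin n) (Fin n) ℝ) with hU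
  have hU1 : Uᵀ * U = 1 := by
    have := Unitary.coe_star_mul_self hA.eigenvectorUnitary
    rw [Matrix.star_eq_conjTranspose, Matrix.conjTranspose_eq_transpose_of_trivial] at this
    exact this
  have hspec : H = U * Matrix.diagonal hA.eigenvalues * Uᵀ := by
    have h1 := hA.spectral_theorem
    rw [Unitary.conjStarAlgAut_apply, Matrix.star_eq_conjTranspose,
      Matrix.conjTranspose_eq_transpose_of_trivial] at h1
    exact h1
  set d := hA.eigenvalues with hd
  have hmul : ∀ D E : Matrix (Fin n) (Fin n) ℝ, (U * D * Uᵀ) * (U * E * Uᵀ) = U * (D * E) * Uᵀ := by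
    intro D E
    calc (U * D * Uᵀ) * (U * E * Uᵀ) = U * D * (Uᵀ * U) * E * Uᵀ := by noncomm_ring
      _ = U * (D * E) * Uᵀ := by rw [hU1]; noncomm_ring
  refine ⟨U * Matrix.diagonal (fun i => (d i)⁻¹) * Uᵀ, ?_, ?_, ?_, ?_⟩
  · rw [Matrix.transpose_mul, Matrix.transpose_mul, Matrix.transpose_transpose,
      Matrix.diagonal_transpose, Matrix.mul_assoc]
  · rw [hspec, hmul, hmul, Matrix.diagonal_mul_diagonal, Matrix.diagonal_mul_diagonal]
    congr 3
    funext i
    by_cases h : d i = 0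
    · simp [h]
    · field_simp
  · rw [hspec, hmul, hmul, Matrix.diagonal_mul_diagonal, Matrix.diagonal_mul_diagonal]
    congr 3
    funext i
    by_cases h : d i = 0
    · simp [h]
    · field_simp
  · rw [hspec, hmul, hmul, Matrix.diagonal_mul_diagonal, Matrix.diagonal_mul_diagonal]
    congr 3
    funext i
    exact mul_comm _ _

theorem exists_moorePenrose {σ : Type*} [Fintype σ] (A : Matrix σ (Fin n) ℝ) :
    ∃ P : Matrix (Fin n) σ ℝ, IsMoorePenrose A P := by
  obtain ⟨G, hG, h1, h2, h3⟩ := exists_sym_inverse (Aᵀ * A) (by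
    rw [Matrix.transpose_mul, Matrix.transpose_transpose])
  refine ⟨G * Aᵀ, ?_, ?_, ?_, ?_⟩
  · have h4 : Aᵀ * A * (G * (Aᵀ * A) - 1) = 0 := by
      rw [Matrix.mul_sub, Matrix.mul_one, ← Matrix.mul_assoc, h1, sub_self]
    have h5 : A * (G * (Aᵀ * A) - 1) = 0 := by
      have := (Matrix.conjTranspose_mul_self_mul_eq_zero A (G * (Aᵀ * A) - 1)).1
        (by rw [Matrix.conjTranspose_eq_transpose_of_trivial]; exact h4)
      exact this
    rw [Matrix.mul_sub, Matrix.mul_one, sub_eq_zero] at h5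
    rw [Matrix.mul_assoc, Matrix.mul_assoc]
    exact h5
  · calc G * Aᵀ * A * (G * Aᵀ) = (G * (Aᵀ * A) * G) * Aᵀ := by simp only [Matrix.mul_assoc]
      _ = G * Aᵀ := by rw [h2]
  · rw [Matrix.transpose_mul, Matrix.transpose_mul, Matrix.transpose_transpose, hG,
      Matrix.mul_assoc]
  · rw [Matrix.mul_assoc, ← h3, Matrix.transpose_mul, hG, Matrix.transpose_mul,
      Matrix.transpose_transpose, h3]

end Pool.Agent.R944.Tysz
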