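import Pool.Agent.R944.Tysz.Sys

/-!
# Small integer solutions of consistent integer systems

The argument of Borosh, Flahive, Rubin and Treybig (a sharp bound for solutions of linear
Diophantine equations), in the form needed here.
-/

set_option autoImplicit false

open Finset

namespace Pool.Agent.R944.Tysz

variable {n : ℕ}

/-- `ℓ¹` norm -/
def nrm (v : Fin n → ℤ) : ℕ := ∑ k, (v k).natAbs

theorem nrm_add_le (v w : Fin n → ℤ) : nrm (v + w) ≤ nrm v + nrm w := by
  unfold nrm
  rw [← Finset.sum_add_distrib]
  exact Finset.sum_le_sum fun k _ => Int.natAbs_add_le _ _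

theorem nrm_sum_le (l : List (Fin n → ℤ)) (h : ∀ u ∈ l, nrm u ≤ 1) : nrm l.sum ≤ l.length := by
  induction l with
  | nil => simp [nrm]
  | cons u l ih =>
    rw [List.sum_cons, List.length_cons]
    have h1 := nrm_add_le u l.sum
    have h2 := h u (by simp)
    have h3 := ih (fun w hw => h w (by simp [hw]))
    omega

theorem exists_list : ∀ (L : ℕ) (v : Fin n → ℤ), nrm v = L →
    ∃ l : List (Fin n → ℤ), l.length = L ∧ l.sum = v ∧
      ∀ u ∈ l, nrm u ≤ 1 ∧ ∀ k, v k = 0 → u k = 0
  | 0, v, h => by
    refine ⟨[], rfl, ?_, by simp⟩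
    funext k
    unfold nrm at h
    rw [Finset.sum_eq_zero_iff] at h
    have := h k (Finset.mem_univ _)
    simp only [List.sum_nil, Pi.zero_apply]
    omega
  | L + 1, v, h => by
    have hne : ∃ k, v k ≠ 0 := by
      by_contra hc
      push Not at hc
      have : nrm v = 0 := by
        unfold nrm
        exact Finset.sum_eq_zero fun k _ => by rw [hc k]; rfl
      omega
    obtain ⟨k, hk⟩ := hne
    set u : Fin n → ℤ := Pi.single k (v k).sign with hu
    have hu1 : nrm u = 1 := by
      unfold nrm
      rw [Finset.sum_eq_single k]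
      · rw [hu, Pi.single_eq_same, Int.natAbs_sign]
        simp [hk]
      · intro j _ hj
        rw [hu, Pi.single_eq_of_ne hj]; rfl
      · intro h; exact absurd (Finset.mem_univ _) h
    have hv' : nrm (v - u) = L := by
      have h1 : nrm v = nrm (v - u) + nrm u := by
        unfold nrm
        rw [← Finset.sum_add_distrib]
        refine Finset.sum_congr rfl fun j _ => ?_
        by_cases hj : j = k
        · subst hj
          rw [Pi.sub_apply, hu, Pi.single_eq_same]
          rcases lt_trichotomy (v j) 0 with h2 | h2 | h2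
          · rw [Int.sign_eq_neg_one_of_neg h2]; omega
          · exact absurd h2 hk
          · rw [Int.sign_eq_one_of_pos h2]; omega
        · rw [Pi.sub_apply, hu, Pi.single_eq_of_ne hj]; simp
      omega
    obtain ⟨l, hl1, hl2, hl3⟩ := exists_list L (v - u) hv'
    refine ⟨u :: l, by simp [hl1], by rw [List.sum_cons, hl2]; abel, ?_⟩
    intro w hw
    rcases List.mem_cons.1 hw with rfl | hw
    · refine ⟨hu1.le, fun j hj => ?_⟩
      have : j ≠ k := fun h => hk (h ▸ hj)
      rw [hu, Pi.single_eq_of_ne this]
    · refine ⟨(hl3 w hw).1, fun j hj => (hl3 w hw).2 j ?_⟩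
      have : j ≠ k := fun h => hk (h ▸ hj)
      rw [Pi.sub_apply, hj, hu, Pi.single_eq_of_ne this]; rfl

/-- index of the lattice generated by the columns of a nonsingular integer matrix -/
theorem card_quotient {r : ℕ} (A : Matrix (Fin r) (Fin r) ℤ) (hA : A.det ≠ 0) :
    Nat.card ((Fin r → ℤ) ⧸ LinearMap.range (Matrix.mulVecLin A)) = A.det.natAbs := by
  have hinj : Function.Injective (Matrix.mulVecLin A) := by
    intro v w hvw
    have h1 : A.mulVec (v - w) = 0 := by
      rw [Matrix.mulVec_sub]
      have : A.mulVec v = A.mulVec w := hvw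
      rw [this, sub_self]
    have := Matrix.eq_zero_of_mulVec_eq_zero hA h1
    exact sub_eq_zero.1 this
  let e : (Fin r → ℤ) ≃ₗ[ℤ] LinearMap.range (Matrix.mulVecLin A) :=
    LinearEquiv.ofInjective (Matrix.mulVecLin A) hinj
  rw [← Submodule.natAbs_det_equiv (LinearMap.range (Matrix.mulVecLin A)) e]
  congr 1
  have h1 : ((LinearMap.range (Matrix.mulVecLin A)).subtype ∘ₗ
      AddMonoidHom.toIntLinearMap (e : (Fin r → ℤ) →+ LinearMap.range (Matrix.mulVecLin A))) =
      Matrix.toLin' A := by
    apply LinearMap.ext
    intro v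
    rfl
  rw [h1, LinearMap.det_toLin']

/-- Vectors of `ℓ¹` norm at least the index can be shortened modulo the lattice. -/
theorem exists_shorter {r : ℕ} (B : Fin r → Fin n → ℤ) (A : Matrix (Fin r) (Fin r) ℤ)
    (hA : A.det ≠ 0) (v : Fin n → ℤ) (hv : A.det.natAbs ≤ nrm v) :
    ∃ (δ : Fin n → ℤ) (z : Fin r → ℤ), nrm (v - δ) < nrm v ∧ (∀ k, v k = 0 → δ k = 0) ∧
      ∀ i, ∑ k, B i k * δ k = ∑ j, A i j * z j := by
  obtain ⟨l, hl1, hl2, hl3⟩ := exists_list (nrm v) v rfl
  set N := LinearMap.range (Matrix.mulVecLin A) with hN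
  have hcard := card_quotient A hA
  have hfin : Finite ((Fin r → ℤ) ⧸ N) := by
    apply Nat.finite_of_card_ne_zero
    rw [hcard]
    exact Int.natAbs_ne_zero.2 hA
  have : Fintype ((Fin r → ℤ) ⧸ N) := Fintype.ofFinite _
  have hlt : Fintype.card ((Fin r → ℤ) ⧸ N) < Fintype.card (Fin (nrm v + 1)) := by
    rw [← Nat.card_eq_fintype_card, hcard, Fintype.card_fin]
    omega
  let φ : Fin (nrm v + 1) → ((Fin r → ℤ) ⧸ N) := fun t =>
    Submodule.Quotient.mk (fun i => ∑ k, B i k * (l.take t).sum k)
  obtain ⟨s, t, hst, heq⟩ := Fintype.exists_ne_map_eq_of_card_lt φ hlt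
  wlog hlt' : s < t generalizing s t
  · exact this t s (Ne.symm hst) heq.symm (lt_of_le_of_ne (not_lt.1 hlt') (Ne.symm hst))
  set δ : Fin n → ℤ := ((l.take t).drop s).sum with hδ
  have hs : (s : ℕ) < t := hlt'
  have ht : (t : ℕ) ≤ nrm v := Nat.lt_succ_iff.1 t.2
  have hsum1 : (l.take t).sum = (l.take s).sum + δ := by
    have h1 : l.take t = (l.take t).take s ++ (l.take t).drop s := (List.take_append_drop _ _).symm
    rw [h1, List.sum_append, List.take_take, Nat.min_eq_left hs.le]
  have hsum2 : v = (l.take t).sum + (l.drop t).sum := by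
    rw [← List.sum_append, List.take_append_drop, hl2]
  have hmem : (fun i => ∑ k, B i k * δ k) ∈ N := by
    have h1 : (fun i => ∑ k, B i k * (l.take t).sum k) - (fun i => ∑ k, B i k * (l.take s).sum k) ∈ N :=
      (Submodule.Quotient.eq N).1 heq.symm
    have h2 : (fun i => ∑ k, B i k * (l.take t).sum k) - (fun i => ∑ k, B i k * (l.take s).sum k) =
        fun i => ∑ k, B i k * δ k := by
      funext i
      rw [Pi.sub_apply, ← Finset.sum_sub_distrib]
      refine Finset.sum_congr rfl fun k _ => ?_
      rw [hsum1, Pi.add_apply]; ring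
    rw [h2] at h1
    exact h1
  obtain ⟨z, hz⟩ := hmem
  refine ⟨δ, z, ?_, ?_, ?_⟩
  · have h1 : v - δ = (l.take s ++ l.drop t).sum := by
      rw [List.sum_append]
      conv_lhs => rw [hsum2, hsum1]
      abel
    rw [h1]
    have h2 : nrm (l.take s ++ l.drop t).sum ≤ (l.take s ++ l.drop t).length := by
      apply nrm_sum_le
      intro u hu
      rcases List.mem_append.1 hu with h | h
      · exact (hl3 u (List.mem_of_mem_take h)).1
      · exact (hl3 u (List.mem_of_mem_drop h)).1
    rw [List.length_append, List.length_take, List.length_drop, hl1] at h2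
    have : min (s : ℕ) (nrm v) = s := by omega
    omega
  · intro k hk
    rw [hδ]
    have : ∀ m : List (Fin n → ℤ), (∀ u ∈ m, u k = 0) → m.sum k = 0 := by
      intro m
      induction m with
      | nil => intro _; rfl
      | cons u m ih =>
        intro h
        rw [List.sum_cons, Pi.add_apply, h u (by simp), ih (fun w hw => h w (by simp [hw])), add_zero]
    apply this
    intro u hu
    exact (hl3 u (List.mem_of_mem_take (List.mem_of_mem_drop hu))).2 k hk
  · intro i
    have h1 := congrFun hz i
    rw [← h1]
    rfl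

/-- **Small integer solutions.** -/
theorem integer_main {ι : Type*} (a : ι → Fin n → ℤ) (b : ι → ℤ) (x : Fin n → ℤ)
    (hx : ∀ e, ∑ k, a e k * x k = b e) (hgood : ∀ e, Good (a e) (b e)) :
    ∃ y : Fin n → ℤ, (∀ k, |y k| ≤ 2 ^ (n - 1)) ∧ ∀ e, ∑ k, a e k * y k = b e := by
  classical
  obtain ⟨r, f, g₀, hr, hdet₀, hall⟩ := reduce a b (fun k => (x k : ℂ))
    (fun e => by exact_mod_cast hx e)
  have hallZ : ∀ y : Fin n → ℤ, (∀ i, ∑ k, a (f i) k * y k = b (f i)) →
      ∀ e, ∑ k, a e k * y k = b e := by
    intro y hy e
    have h1 := hall (fun k => (y k : ℚ)) (fun i => by exact_mod_cast hy i) e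
    exact_mod_cast h1
  by_cases h0 : ∃ i, b (f i) = 1
  · obtain ⟨i0, hi0⟩ := h0
    set B : Fin r → Fin n → ℤ := fun i => a (f i) with hB
    set b' : Fin r → ℤ := fun i => b (f i) with hb'
    obtain ⟨g, -, hgmax⟩ := Finset.exists_max_image (Finset.univ : Finset (Fin r → Fin n))
      (fun g => |(Matrix.of fun i j => B i (g j)).det|) ⟨g₀, Finset.mem_univ _⟩
    set A : Matrix (Fin r) (Fin r) ℤ := Matrix.of fun i j => B i (g j) with hAdef
    have hdet : A.det ≠ 0 := by
      intro h
      have h1 := hgmax g₀ (Finset.mem_univ _)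
      rw [h, abs_zero] at h1
      exact hdet₀ (abs_nonpos_iff.1 h1)
    have hginj : Function.Injective g := by
      intro j k hjk
      by_contra hne
      exact hdet (Matrix.det_zero_of_column_eq hne (fun i => by simp [hAdef, hjk]))
    -- the integer solution with the smallest norm outside of the columns `g`
    let out : (Fin n → ℤ) → (Fin n → ℤ) := fun y k => if k ∈ Set.range g then 0 else y k
    have hex : ∃ L : ℕ, ∃ y : Fin n → ℤ, (∀ i, ∑ k, B i k * y k = b' i) ∧ nrm (out y) = L :=
      ⟨_, x, fun i => hx (f i), rfl⟩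
    obtain ⟨y, hy, hyL⟩ := Nat.find_spec hex
    have hmin : nrm (out y) < A.det.natAbs := by
      by_contra hc
      push Not at hc
      obtain ⟨δ, z, h1, h2, h3⟩ := exists_shorter B A hdet (out y) hc
      have hδg : ∀ k, k ∈ Set.range g → δ k = 0 := fun k hk => h2 k (by simp only [out]; rw [if_pos hk])
      let zt : Fin n → ℤ := fun k => ∑ j, if g j = k then z j else 0
      have hzt : ∀ k, k ∉ Set.range g → zt k = 0 := by
        intro k hk
        refine Finset.sum_eq_zero fun j _ => ?_
        rw [if_neg (fun h => hk ⟨j, h⟩)]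
      have hBzt : ∀ i, ∑ k, B i k * zt k = ∑ j, A i j * z j := by
        intro i
        simp only [zt, Finset.mul_sum]
        rw [Finset.sum_comm]
        refine Finset.sum_congr rfl fun j _ => ?_
        rw [Finset.sum_eq_single (g j)]
        · rw [if_pos rfl]; rfl
        · intro k _ hk
          rw [if_neg (fun h => hk h.symm), mul_zero]
        · intro h; exact absurd (Finset.mem_univ _) h
      have hnew : nrm (out (fun k => y k - δ k + zt k)) < nrm (out y) := by
        refine lt_of_le_of_lt (le_of_eq ?_) h1
        congr 1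
        funext k
        simp only [out, Pi.sub_apply]
        by_cases hk : k ∈ Set.range g
        · rw [if_pos hk, if_pos hk, hδg k hk]; rfl
        · rw [if_neg hk, if_neg hk, hzt k hk, add_zero]
      have := Nat.find_min hex (m := nrm (out (fun k => y k - δ k + zt k)))
        (by rw [← hyL]; exact hnew)
      apply this
      refine ⟨_, ?_, rfl⟩
      intro i
      have : ∑ k, B i k * (y k - δ k + zt k) =
          ∑ k, B i k * y k - ∑ k, B i k * δ k + ∑ k, B i k * zt k := by
        rw [← Finset.sum_sub_distrib, ← Finset.sum_add_distrib]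
        refine Finset.sum_congr rfl fun k _ => by ring
      rw [this, h3 i, hBzt i, hy i]; ring
    have hpow : (2 : ℤ) ^ (r - 1) ≤ 2 ^ (n - 1) :=
      pow_le_pow_right₀ (by norm_num) (Nat.sub_le_sub_right hr 1)
    have hDle : |A.det| ≤ 2 ^ (r - 1) :=
      minor_bound (fun i => a (f i)) (fun i => b (f i)) (fun i => hgood _) i0 hi0 g
    have hDpos : 1 ≤ |A.det| := Int.one_le_abs hdet
    have hout : ∑ k, |out y k| ≤ |A.det| - 1 := by
      have h1 : ((nrm (out y) : ℕ) : ℤ) = ∑ k, |out y k| := by
        unfold nrm
        push_cast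
        rfl
      have h2 : ((A.det.natAbs : ℕ) : ℤ) = |A.det| := Int.natCast_natAbs _
      rw [← h1, ← h2]
      omega
    refine ⟨y, fun k => ?_, hallZ y hy⟩
    by_cases hk : k ∈ Set.range g
    · obtain ⟨j, rfl⟩ := hk
      -- Cramer's rule
      have hAy : A.mulVec (fun j => y (g j)) = fun i => b' i - ∑ k, B i k * out y k := by
        funext i
        simp only [Matrix.mulVec, dotProduct]
        rw [← hy i, ← Finset.sum_sub_distrib]
        have h1 : ∀ k, B i k * y k - B i k * out y k = if k ∈ Set.range g then B i k * y k else 0 := by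
          intro k
          simp only [out]
          split_ifs <;> ring
        simp_rw [h1]
        have h2 : ∑ j, A i j * y (g j) = ∑ k ∈ Finset.univ.image g, B i k * y k := by
          rw [Finset.sum_image (fun a _ b _ h => hginj h)]
          rfl
        rw [h2, ← Finset.sum_filter]
        refine Finset.sum_congr ?_ fun _ _ => rfl
        ext k
        simp
      have hcr : A.det * y (g j) = A.cramer (fun i => b' i - ∑ k, B i k * out y k) j := by
        rw [← hAy, Matrix.cramer_eq_adjugate_mulVec, Matrix.mulVec_mulVec, Matrix.adjugate_mul,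
          Matrix.smul_mulVec, Matrix.one_mulVec]
        rfl
      have hlin : A.cramer (fun i => b' i - ∑ k, B i k * out y k) j =
          A.cramer b' j - ∑ k, out y k * A.cramer (fun i => B i k) j := by
        have h1 : (fun i => b' i - ∑ k, B i k * out y k) =
            b' - ∑ k, out y k • (fun i => B i k) := by
          funext i
          rw [Pi.sub_apply, Finset.sum_apply]
          congr 1
          refine Finset.sum_congr rfl fun k _ => ?_
          rw [Pi.smul_apply, smul_eq_mul, mul_comm]
        rw [h1, map_sub, Pi.sub_apply, map_sum, Finset.sum_apply]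
        congr 1
        refine Finset.sum_congr rfl fun k _ => ?_
        rw [map_smul, Pi.smul_apply, smul_eq_mul]
      have hc1 : |A.cramer b' j| ≤ 2 ^ (r - 1) := by
        rw [Matrix.cramer_apply]
        exact cramer_bound (fun i => a (f i)) (fun i => b (f i)) (fun i => hgood _) i0 hi0 g hginj j
      have hc2 : ∀ k, |A.cramer (fun i => B i k) j| ≤ |A.det| := by
        intro k
        rw [Matrix.cramer_apply]
        have h1 : A.updateCol j (fun i => B i k) =
            Matrix.of fun i j' => B i ((Function.update g j k) j') := by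
          ext i j'
          rw [Matrix.updateCol_apply, Matrix.of_apply, Function.update_apply]
          split_ifs <;> rfl
        rw [h1]
        exact hgmax _ (Finset.mem_univ _)
      have hfin : |A.det| * |y (g j)| ≤ |A.det| * 2 ^ (r - 1) := by
        rw [← abs_mul, hcr, hlin]
        calc |A.cramer b' j - ∑ k, out y k * A.cramer (fun i => B i k) j|
            ≤ |A.cramer b' j| + |∑ k, out y k * A.cramer (fun i => B i k) j| := abs_sub _ _
          _ ≤ 2 ^ (r - 1) + ∑ k, |out y k| * |A.det| := by
              refine add_le_add hc1 (le_trans (Finset.abs_sum_le_sum_abs _ _) ?_)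
              refine Finset.sum_le_sum fun k _ => ?_
              rw [abs_mul]
              exact mul_le_mul_of_nonneg_left (hc2 k) (abs_nonneg _)
          _ = 2 ^ (r - 1) + (∑ k, |out y k|) * |A.det| := by rw [Finset.sum_mul]
          _ ≤ 2 ^ (r - 1) + (|A.det| - 1) * |A.det| := by
              have := mul_le_mul_of_nonneg_right hout (abs_nonneg A.det)
              linarith
          _ ≤ |A.det| * 2 ^ (r - 1) := by nlinarith
      have := le_of_mul_le_mul_left hfin (by linarith)
      exact le_trans this hpow
    · have h1 : |y k| = |out y k| := by simp only [out]; rw [if_neg hk]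
      have h2 : |out y k| ≤ ∑ k, |out y k| :=
        Finset.single_le_sum (f := fun k => |out y k|) (fun _ _ => abs_nonneg _) (Finset.mem_univ k)
      rw [h1]
      linarith
  · push Not at h0
    have hb0 : ∀ i, b (f i) = 0 := by
      intro i
      rcases hgood (f i) with h | h
      · exact h.2.2
      · exact absurd h.2.2 (h0 i)
    exact ⟨fun _ => 0, fun k => by simp, hallZ _ (fun i => by simp [hb0 i])⟩

end Pool.Agent.R944.Tysz
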