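import Pool.Agent.R944.Tysz.Sys

/-!
# Bounds for the minimal least-squares solution of integer systems
-/

set_option autoImplicit false

open Finset Matrix

namespace Pool.Agent.R944.Tysz

variable {n : ℕ}

/-! ### Cauchy-Binet, in the form of a sum over all functions -/

theorem det_transpose_mul_expand {ι : Type*} [Fintype ι] (A M : Matrix ι (Fin n) ℝ) :
    (Aᵀ * M).det = ∑ f : Fin n → ι, (∏ i, A (f i) i) * (M.submatrix f id).det := by
  have h1 : (Aᵀ * M).det = (Matrix.detRowAlternating (R := ℝ) (n := Fin n)).toMultilinearMap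
      (fun i => ∑ e, A e i • M e) := by
    have : (Aᵀ * M) = fun i => ∑ e, A e i • M e := by
      funext i j
      rw [Matrix.mul_apply, Finset.sum_apply]
      rfl
    conv_lhs => rw [this]
    rfl
  rw [h1, MultilinearMap.map_sum]
  refine Finset.sum_congr rfl fun f _ => ?_
  rw [MultilinearMap.map_smul_univ, smul_eq_mul]
  rfl

theorem cauchy_binet {ι : Type*} [Fintype ι] (A M : Matrix ι (Fin n) ℝ) :
    ((n.factorial : ℕ) : ℝ) * (Aᵀ * M).det =
      ∑ f : Fin n → ι, (A.submatrix f id).det * (M.submatrix f id).det := by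
  have h1 : ∀ σ : Equiv.Perm (Fin n), (Aᵀ * M).det =
      ∑ f : Fin n → ι, (((Equiv.Perm.sign σ : ℤ) : ℝ) * ∏ i, A (f (σ i)) i) *
        (M.submatrix f id).det := by
    intro σ
    rw [det_transpose_mul_expand]
    have h2 : ∑ f : Fin n → ι, (∏ i, A (f i) i) * (M.submatrix f id).det =
        ∑ f : Fin n → ι, (∏ i, A (f (σ i)) i) * (M.submatrix (fun i => f (σ i)) id).det := by
      refine (Fintype.sum_equiv (Equiv.arrowCongr σ.symm (Equiv.refl ι)) _ _ ?_).symm
      intro f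
      rfl
    rw [h2]
    refine Finset.sum_congr rfl fun f _ => ?_
    have h3 : (M.submatrix (fun i => f (σ i)) id).det =
        ((Equiv.Perm.sign σ : ℤ) : ℝ) * (M.submatrix f id).det := by
      have := Matrix.det_permute σ (M.submatrix f id)
      rw [← this]
      rfl
    rw [h3]; ring
  have h4 : ∑ σ : Equiv.Perm (Fin n), (Aᵀ * M).det = ((n.factorial : ℕ) : ℝ) * (Aᵀ * M).det := by
    rw [Finset.sum_const, Finset.card_univ, Fintype.card_perm, Fintype.card_fin, nsmul_eq_mul]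
  rw [← h4, Finset.sum_congr rfl (fun σ _ => h1 σ), Finset.sum_comm]
  refine Finset.sum_congr rfl fun f _ => ?_
  rw [← Finset.sum_mul]
  congr 1
  rw [Matrix.det_apply']
  rfl

/-! ### sums of squares -/

/-- squared Euclidean norm -/
def sq {κ : Type*} [Fintype κ] (v : κ → ℝ) : ℝ := ∑ k, v k ^ 2

theorem sq_nonneg' {κ : Type*} [Fintype κ] (v : κ → ℝ) : 0 ≤ sq v :=
  Finset.sum_nonneg fun _ _ => sq_nonneg _

theorem sq_eq_zero {κ : Type*} [Fintype κ] {v : κ → ℝ} (h : sq v = 0) : v = 0 := by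
  funext k
  have := (Finset.sum_eq_zero_iff_of_nonneg (fun _ _ => sq_nonneg _)).1 h k (Finset.mem_univ k)
  exact pow_eq_zero_iff (two_ne_zero) |>.1 this

theorem sq_add {κ : Type*} [Fintype κ] (v w : κ → ℝ) :
    sq (v + w) = sq v + 2 * (v ⬝ᵥ w) + sq w := by
  unfold sq dotProduct
  rw [Finset.mul_sum, ← Finset.sum_add_distrib, ← Finset.sum_add_distrib]
  refine Finset.sum_congr rfl fun k _ => ?_
  rw [Pi.add_apply]; ring

theorem parallelogram {κ : Type*} [Fintype κ] (v w : κ → ℝ) :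
    sq (fun k => (v k + w k) / 2) = (sq v + sq w) / 2 - sq (fun k => v k - w k) / 4 := by
  unfold sq
  rw [← Finset.sum_add_distrib, Finset.sum_div, Finset.sum_div, ← Finset.sum_sub_distrib]
  refine Finset.sum_congr rfl fun k _ => by ring

/-- `x₀` is the vector of minimal Euclidean norm among the vectors which minimise
`‖A x - b‖`. -/
def IsMinNormLeastSquares {σ : Type*} [Fintype σ] (A : Matrix σ (Fin n) ℝ) (b : σ → ℝ)
    (x₀ : Fin n → ℝ) : Prop :=
  (∀ x, sq (A *ᵥ x₀ - b) ≤ sq (A *ᵥ x - b)) ∧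
  ∀ x, (∀ y, sq (A *ᵥ x - b) ≤ sq (A *ᵥ y - b)) → sq x₀ ≤ sq x

theorem minNorm_unique {σ : Type*} [Fintype σ] (A : Matrix σ (Fin n) ℝ) (b : σ → ℝ)
    {x₀ x₁ : Fin n → ℝ} (h0 : IsMinNormLeastSquares A b x₀)
    (h1 : ∀ y, sq (A *ᵥ x₁ - b) ≤ sq (A *ᵥ y - b)) (h2 : sq x₁ ≤ sq x₀) : x₁ = x₀ := by
  set m : Fin n → ℝ := fun k => (x₀ k + x₁ k) / 2 with hm
  have hAm : A *ᵥ m - b = fun k => ((A *ᵥ x₀ - b) k + (A *ᵥ x₁ - b) k) / 2 := by
    funext k
    have : m = (1 / 2 : ℝ) • (x₀ + x₁) := by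
      funext k; simp only [hm, Pi.smul_apply, Pi.add_apply, smul_eq_mul]; ring
    rw [this, Matrix.mulVec_smul, Matrix.mulVec_add]
    simp only [Pi.sub_apply, Pi.smul_apply, Pi.add_apply, smul_eq_mul]; ring
  have h3 : sq (A *ᵥ x₀ - b) = sq (A *ᵥ x₁ - b) := le_antisymm (h0.1 _) (h1 _)
  have h4 : sq (A *ᵥ m - b) ≤ sq (A *ᵥ x₀ - b) := by
    rw [hAm, parallelogram, ← h3]
    have := sq_nonneg' (fun k => (A *ᵥ x₀ - b) k - (A *ᵥ x₁ - b) k)
    linarith
  have h5 : sq x₀ ≤ sq m := h0.2 m (fun y => le_trans h4 (h0.1 y))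
  rw [hm, parallelogram] at h5
  have h6 : sq (fun k => x₀ k - x₁ k) ≤ 0 := by linarith
  have h7 := sq_eq_zero (le_antisymm h6 (sq_nonneg' _))
  funext k
  have := congrFun h7 k
  simp only [Pi.zero_apply] at this
  linarith

/-! ### the regularised system -/

/-- rows of the regularised system -/
def regA {σ : Type*} (a : σ → Fin n → ℤ) (ε : ℝ) : Matrix (σ ⊕ Fin n) (Fin n) ℝ :=
  Matrix.of fun e j =>
    match e with
    | .inl s => ((a s j : ℤ) : ℝ)
    | .inr k => if j = k then ε else 0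

/-- right-hand side of the regularised system -/
def regB {σ : Type*} (b : σ → ℤ) : σ ⊕ Fin n → ℝ :=
  fun e =>
    match e with
    | .inl s => ((b s : ℤ) : ℝ)
    | .inr _ => 0

/-- integer rows -/
def intA {σ : Type*} (a : σ → Fin n → ℤ) : σ ⊕ Fin n → Fin n → ℤ :=
  fun e =>
    match e with
    | .inl s => a s
    | .inr k => rowU k

/-- integer right-hand side -/
def intB {σ : Type*} (b : σ → ℤ) : σ ⊕ Fin n → ℤ :=
  fun e =>
    match e with
    | .inl s => b s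
    | .inr _ => 0

/-- scaling factors -/
noncomputable def scl {σ : Type*} (ε : ℝ) : σ ⊕ Fin n → ℝ :=
  fun e =>
    match e with
    | .inl _ => 1
    | .inr _ => ε

theorem good_int {σ : Type*} (a : σ → Fin n → ℤ) (b : σ → ℤ) (h : ∀ s, Good (a s) (b s))
    (e : σ ⊕ Fin n) : Good (intA a e) (intB (n := n) b e) := by
  rcases e with s | k
  · exact h s
  · left
    rcases good_rowU k with h1 | h1
    · exact absurd h1.2.2 one_ne_zero
    · exact ⟨by show posSum (rowU k) ≤ 2; linarith [h1.1],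
        by show negSum (rowU k) ≤ 2; linarith [h1.2.1], rfl⟩

theorem minor_reg {σ : Type*} (a : σ → Fin n → ℤ) (ε : ℝ) (f : Fin n → σ ⊕ Fin n) :
    ((regA a ε).submatrix f id).det =
      (∏ i, scl (n := n) ε (f i)) * (((Matrix.of fun i j => intA a (f i) j).det : ℤ) : ℝ) := by
  have h1 : (((Matrix.of fun i j => intA a (f i) j).det : ℤ) : ℝ) =
      (Matrix.of fun i j => ((intA a (f i) j : ℤ) : ℝ)).det := by
    have : (Matrix.of fun i j => ((intA a (f i) j : ℤ) : ℝ)) =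
        (Int.castRingHom ℝ).mapMatrix (Matrix.of fun i j => intA a (f i) j) := rfl
    rw [this, ← RingHom.map_det]; rfl
  rw [h1, ← Matrix.det_mul_column]
  congr 1
  ext i j
  rw [Matrix.submatrix_apply, Matrix.of_apply, Matrix.of_apply]
  rcases f i with s | k
  · simp [regA, scl, intA]
  · simp [regA, scl, intA, rowU]

theorem minor_reg' {σ : Type*} (a : σ → Fin n → ℤ) (b : σ → ℤ) (ε : ℝ) (j₀ : Fin n)
    (f : Fin n → σ ⊕ Fin n) :
    (((regA a ε).updateCol j₀ (regB (n := n) b)).submatrix f id).det =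
      (∏ i, scl (n := n) ε (f i)) *
        ((((Matrix.of fun i j => intA a (f i) j).updateCol j₀
          (fun i => intB (n := n) b (f i))).det : ℤ) : ℝ) := by
  set N : Matrix (Fin n) (Fin n) ℤ := (Matrix.of fun i j => intA a (f i) j).updateCol j₀
          (fun i => intB (n := n) b (f i)) with hN
  have h1 : ((N.det : ℤ) : ℝ) = (Matrix.of fun i j => ((N i j : ℤ) : ℝ)).det := by
    have : (Matrix.of fun i j => ((N i j : ℤ) : ℝ)) = (Int.castRingHom ℝ).mapMatrix N := rfl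
    rw [this, ← RingHom.map_det]; rfl
  rw [h1, ← Matrix.det_mul_column]
  congr 1
  ext i j
  rw [Matrix.submatrix_apply, Matrix.of_apply, Matrix.of_apply, hN, Matrix.updateCol_apply,
    Matrix.updateCol_apply]
  simp only [id]
  by_cases hj : j = j₀
  · rw [if_pos hj, if_pos hj]
    rcases f i with s | k
    · simp [regB, scl, intB]
    · simp [regB, scl, intB]
  · rw [if_neg hj, if_neg hj, Matrix.of_apply]
    rcases f i with s | k
    · simp [regA, scl, intA]
    · simp [regA, scl, intA, rowU]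

theorem minor_compare {σ : Type*} (a : σ → Fin n → ℤ) (b : σ → ℤ) (h : ∀ s, Good (a s) (b s))
    (ε : ℝ) (j₀ : Fin n) (f : Fin n → σ ⊕ Fin n) :
    |((regA a ε).submatrix f id).det *
      (((regA a ε).updateCol j₀ (regB (n := n) b)).submatrix f id).det| ≤
      2 ^ (n - 1) * ((regA a ε).submatrix f id).det ^ 2 := by
  rw [minor_reg, minor_reg']
  set P := ∏ i, scl (n := n) ε (f i)
  set d : ℤ := (Matrix.of fun i j => intA a (f i) j).det with hd
  set d' : ℤ := ((Matrix.of fun i j => intA a (f i) j).updateCol j₀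
          (fun i => intB (n := n) b (f i))).det with hd'
  have key : |(d : ℝ) * (d' : ℝ)| ≤ 2 ^ (n - 1) * (d : ℝ) ^ 2 := by
    by_cases hd0 : d = 0
    · rw [hd0]; simp
    · have h1 : |d'| ≤ 2 ^ (n - 1) := by
        by_cases h0 : ∃ i, intB (n := n) b (f i) = 1
        · obtain ⟨i0, hi0⟩ := h0
          exact cramer_bound (fun i => intA a (f i)) (fun i => intB (n := n) b (f i))
            (fun i => good_int a b h (f i)) i0 hi0 id Function.injective_id j₀
        · push Not at h0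
          have hz : ∀ i, intB (n := n) b (f i) = 0 := by
            intro i
            rcases good_int a b h (f i) with h2 | h2
            · exact h2.2.2
            · exact absurd h2.2.2 (h0 i)
          have : d' = 0 := by
            rw [hd']
            apply Matrix.det_eq_zero_of_column_eq_zero j₀
            intro i
            rw [Matrix.updateCol_apply, if_pos rfl, hz]
          rw [this]; simp
      have h2 : (1 : ℤ) ≤ |d| := Int.one_le_abs hd0
      have h3 : |d * d'| ≤ 2 ^ (n - 1) * d ^ 2 := by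
        rw [abs_mul, ← sq_abs d]
        have h4 : (0 : ℤ) ≤ 2 ^ (n - 1) := by positivity
        calc |d| * |d'| ≤ |d| * 2 ^ (n - 1) := mul_le_mul_of_nonneg_left h1 (abs_nonneg _)
          _ = 2 ^ (n - 1) * |d| := mul_comm _ _
          _ ≤ 2 ^ (n - 1) * |d| ^ 2 :=
              mul_le_mul_of_nonneg_left (le_self_pow₀ h2 two_ne_zero) h4
      have h5 : ((|d * d'| : ℤ) : ℝ) ≤ ((2 ^ (n - 1) * d ^ 2 : ℤ) : ℝ) := by exact_mod_cast h3
      push_cast at h5
      exact h5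
  have h6 : |P * (d : ℝ) * (P * (d' : ℝ))| = P ^ 2 * |(d : ℝ) * (d' : ℝ)| := by
    rw [show P * (d : ℝ) * (P * (d' : ℝ)) = P ^ 2 * ((d : ℝ) * (d' : ℝ)) by ring, abs_mul,
      abs_of_nonneg (sq_nonneg P)]
  rw [h6]
  calc P ^ 2 * |(d : ℝ) * (d' : ℝ)| ≤ P ^ 2 * (2 ^ (n - 1) * (d : ℝ) ^ 2) :=
        mul_le_mul_of_nonneg_left key (sq_nonneg P)
    _ = 2 ^ (n - 1) * (P * (d : ℝ)) ^ 2 := by ring

/-- The solution of the regularised normal equations is bounded. -/
theorem reg_bound {σ : Type*} [Fintype σ] (a : σ → Fin n → ℤ) (b : σ → ℤ)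
    (h : ∀ s, Good (a s) (b s)) {ε : ℝ} (hε : 0 < ε) :
    ∃ x : Fin n → ℝ, ((regA a ε)ᵀ * regA a ε) *ᵥ x = (regA a ε)ᵀ *ᵥ regB (n := n) b ∧
      ∀ j, |x j| ≤ 2 ^ (n - 1) := by
  classical
  set R := regA a ε with hR
  set c := regB (n := n) b with hc
  have hfact : (0 : ℝ) < ((n.factorial : ℕ) : ℝ) := by exact_mod_cast n.factorial_pos
  have hcb := cauchy_binet R R
  have hpos : 0 < (Rᵀ * R).det := by
    have h1 : 0 < ∑ f : Fin n → σ ⊕ Fin n, (R.submatrix f id).det * (R.submatrix f id).det := by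
      apply Finset.sum_pos'
      · intro f _; exact mul_self_nonneg _
      · refine ⟨fun i => .inr i, Finset.mem_univ _, ?_⟩
        have h2 : R.submatrix (fun i => (.inr i : σ ⊕ Fin n)) id = Matrix.diagonal fun _ => ε := by
          ext i j
          rw [Matrix.submatrix_apply, hR, regA, Matrix.of_apply, Matrix.diagonal_apply]
          simp only [id, eq_comm]
        rw [h2, Matrix.det_diagonal]
        have : 0 < ∏ _i : Fin n, ε := Finset.prod_pos fun _ _ => hε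
        positivity
    rw [← hcb] at h1
    exact (mul_pos_iff_of_pos_left hfact).1 h1
  have hne : (Rᵀ * R).det ≠ 0 := hpos.ne'
  refine ⟨fun j => (Rᵀ * R).cramer (Rᵀ *ᵥ c) j / (Rᵀ * R).det, ?_, ?_⟩
  · have h1 := Matrix.mulVec_cramer (Rᵀ * R) (Rᵀ *ᵥ c)
    have h2 : (fun j => (Rᵀ * R).cramer (Rᵀ *ᵥ c) j / (Rᵀ * R).det) =
        ((Rᵀ * R).det)⁻¹ • (Rᵀ * R).cramer (Rᵀ *ᵥ c) := by
      funext j; rw [Pi.smul_apply, smul_eq_mul]; ring
    rw [h2, Matrix.mulVec_smul, h1, smul_smul, inv_mul_cancel₀ hne, one_smul]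
  · intro j
    rw [abs_div, abs_of_pos hpos, div_le_iff₀ hpos]
    have h1 : (Rᵀ * R).updateCol j (Rᵀ *ᵥ c) = Rᵀ * (R.updateCol j c) := by
      ext i k
      rw [Matrix.updateCol_apply, Matrix.mul_apply]
      split_ifs with hk
      · refine Finset.sum_congr rfl fun e _ => ?_
        have h3 : R.updateCol j c e k = c e := by rw [Matrix.updateCol_apply, if_pos hk]
        show Rᵀ i e * c e = Rᵀ i e * R.updateCol j c e k
        rw [h3]
      · rw [Matrix.mul_apply]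
        refine Finset.sum_congr rfl fun e _ => ?_
        have h3 : R.updateCol j c e k = R e k := by rw [Matrix.updateCol_apply, if_neg hk]
        rw [h3]
    have h2 : ((n.factorial : ℕ) : ℝ) * |(Rᵀ * R).cramer (Rᵀ *ᵥ c) j| ≤
        ((n.factorial : ℕ) : ℝ) * (2 ^ (n - 1) * (Rᵀ * R).det) := by
      rw [Matrix.cramer_apply, h1, ← abs_of_pos hfact, ← abs_mul, abs_of_pos hfact,
        cauchy_binet R (R.updateCol j c)]
      calc |∑ f : Fin n → σ ⊕ Fin n, (R.submatrix f id).det * ((R.updateCol j c).submatrix f id).det|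
          ≤ ∑ f : Fin n → σ ⊕ Fin n,
            |(R.submatrix f id).det * ((R.updateCol j c).submatrix f id).det| :=
            Finset.abs_sum_le_sum_abs _ _
        _ ≤ ∑ f : Fin n → σ ⊕ Fin n, 2 ^ (n - 1) * (R.submatrix f id).det ^ 2 :=
            Finset.sum_le_sum fun f _ => minor_compare a b h ε j f
        _ = 2 ^ (n - 1) * ∑ f : Fin n → σ ⊕ Fin n,
              (R.submatrix f id).det * (R.submatrix f id).det := by
            rw [Finset.mul_sum]
            refine Finset.sum_congr rfl fun f _ => by ring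
        _ = ((n.factorial : ℕ) : ℝ) * (2 ^ (n - 1) * (Rᵀ * R).det) := by
            rw [← hcb]; ring
    exact le_of_mul_le_mul_left h2 hfact

/-- `‖R x - c‖² = ‖A x - b‖² + ε² ‖x‖²` -/
theorem sq_reg {σ : Type*} [Fintype σ] (a : σ → Fin n → ℤ) (b : σ → ℤ) (ε : ℝ) (x : Fin n → ℝ) :
    sq (regA a ε *ᵥ x - regB (n := n) b) =
      sq ((Matrix.of fun s j => ((a s j : ℤ) : ℝ)) *ᵥ x - fun s => ((b s : ℤ) : ℝ)) +
        ε ^ 2 * sq x := by
  unfold sq
  rw [Fintype.sum_sum_type, Finset.mul_sum]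
  congr 1
  refine Finset.sum_congr rfl fun k _ => ?_
  rw [Pi.sub_apply]
  have h1 : (regA a ε *ᵥ x) (Sum.inr k) = ε * x k := by
    simp [Matrix.mulVec, dotProduct, regA]
  rw [h1]
  simp only [regB]
  ring

/-- Solutions of the normal equations are least-squares solutions. -/
theorem normal_min {κ : Type*} [Fintype κ] (R : Matrix κ (Fin n) ℝ) (c : κ → ℝ)
    (x : Fin n → ℝ) (hx : (Rᵀ * R) *ᵥ x = Rᵀ *ᵥ c) (y : Fin n → ℝ) :
    sq (R *ᵥ x - c) ≤ sq (R *ᵥ y - c) := by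
  have h1 : R *ᵥ y - c = (R *ᵥ x - c) + R *ᵥ (y - x) := by
    rw [Matrix.mulVec_sub]; abel
  have h2 : (R *ᵥ x - c) ⬝ᵥ (R *ᵥ (y - x)) = 0 := by
    rw [Matrix.dotProduct_mulVec]
    have : (R *ᵥ x - c) ᵥ* R = 0 := by
      rw [← Matrix.mulVec_transpose, Matrix.mulVec_sub, Matrix.mulVec_mulVec, hx, sub_self]
    rw [this, zero_dotProduct]
  rw [h1, sq_add, h2]
  have := sq_nonneg' (R *ᵥ (y - x))
  linarith

theorem continuous_sq_affine {κ : Type*} [Fintype κ] (A : Matrix κ (Fin n) ℝ) (b : κ → ℝ) :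
    Continuous fun x : Fin n → ℝ => sq (A *ᵥ x - b) := by
  unfold sq
  simp only [Pi.sub_apply, Matrix.mulVec, dotProduct]
  fun_prop

/-- **Bound for the minimal least-squares solution.** -/
theorem pinv_main {σ : Type*} [Fintype σ] (a : σ → Fin n → ℤ) (b : σ → ℤ)
    (h : ∀ s, Good (a s) (b s)) (x₀ : Fin n → ℝ)
    (h0 : IsMinNormLeastSquares (Matrix.of fun s j => ((a s j : ℤ) : ℝ))
      (fun s => ((b s : ℤ) : ℝ)) x₀) (j : Fin n) : |x₀ j| ≤ 2 ^ (n - 1) := by
  set A : Matrix σ (Fin n) ℝ := Matrix.of fun s j => ((a s j : ℤ) : ℝ) with hA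
  set c : σ → ℝ := fun s => ((b s : ℤ) : ℝ) with hc
  have hseq : ∀ m : ℕ, ∃ x : Fin n → ℝ, (∀ j, |x j| ≤ 2 ^ (n - 1)) ∧ sq x ≤ sq x₀ ∧
      sq (A *ᵥ x - c) ≤ sq (A *ᵥ x₀ - c) + (1 / ((m : ℝ) + 1)) ^ 2 * sq x₀ := by
    intro m
    have hε : (0 : ℝ) < 1 / ((m : ℝ) + 1) := by positivity
    obtain ⟨x, hx, hb⟩ := reg_bound a b h hε
    have h1 := normal_min (regA a (1 / ((m : ℝ) + 1))) (regB (n := n) b) x hx x₀
    rw [sq_reg, sq_reg] at h1
    have h2 := h0.1 x
    have h3 : (0 : ℝ) < (1 / ((m : ℝ) + 1)) ^ 2 := by positivity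
    refine ⟨x, hb, ?_, ?_⟩
    · have h4 : (1 / ((m : ℝ) + 1)) ^ 2 * sq x ≤ (1 / ((m : ℝ) + 1)) ^ 2 * sq x₀ := by linarith
      exact le_of_mul_le_mul_left h4 h3
    · have h4 : 0 ≤ (1 / ((m : ℝ) + 1)) ^ 2 * sq x := mul_nonneg h3.le (sq_nonneg' _)
      linarith
  choose u hu1 hu2 hu3 using hseq
  have hcomp : IsCompact (Set.pi Set.univ fun _ : Fin n => Set.Icc (-(2 : ℝ) ^ (n - 1)) (2 ^ (n - 1))) :=
    isCompact_univ_pi fun _ => isCompact_Icc
  obtain ⟨x₁, hx1, φ, hφ, hlim⟩ := hcomp.tendsto_subseq (x := u)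
    (fun m => fun j _ => abs_le.1 (hu1 m j))
  have hc1 : Filter.Tendsto (fun m => sq (A *ᵥ u (φ m) - c)) Filter.atTop
      (nhds (sq (A *ᵥ x₁ - c))) :=
    ((continuous_sq_affine A c).tendsto x₁).comp hlim
  have hc2 : Filter.Tendsto (fun m => sq (u (φ m))) Filter.atTop (nhds (sq x₁)) := by
    have h1 : Continuous fun x : Fin n → ℝ => sq x := by
      unfold sq; fun_prop
    exact (h1.tendsto x₁).comp hlim
  have hlim2 : Filter.Tendsto (fun m => sq (A *ᵥ x₀ - c) +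
      (1 / (((φ m : ℕ) : ℝ) + 1)) ^ 2 * sq x₀) Filter.atTop (nhds (sq (A *ᵥ x₀ - c) + 0 ^ 2 * sq x₀)) := by
    have h1 : Filter.Tendsto (fun m : ℕ => 1 / ((m : ℝ) + 1)) Filter.atTop (nhds 0) :=
      tendsto_one_div_add_atTop_nhds_zero_nat
    have h2 := h1.comp hφ.tendsto_atTop
    exact tendsto_const_nhds.add ((h2.pow 2).mul_const _)
  have h5 : sq (A *ᵥ x₁ - c) ≤ sq (A *ᵥ x₀ - c) := by
    have := le_of_tendsto_of_tendsto' hc1 hlim2 (fun m => hu3 (φ m))
    simpa using this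
  have h6 : sq x₁ ≤ sq x₀ := le_of_tendsto' hc2 (fun m => hu2 (φ m))
  have h7 : x₁ = x₀ := minNorm_unique A c h0 (fun y => le_trans h5 (h0.1 y)) h6
  rw [← h7]
  exact abs_le.2 (hx1 j (Set.mem_univ j))

/-! ### the Moore-Penrose pseudoinverse -/

/-- `P` is the Moore-Penrose pseudoinverse of the real matrix `A`: the four Penrose equations. -/
def IsMoorePenrose {σ τ : Type*} [Fintype σ] [Fintype τ] (A : Matrix σ τ ℝ) (P : Matrix τ σ ℝ) :
    Prop :=
  A * P * A = A ∧ P * A * P = P ∧ (A * P)ᵀ = A * P ∧ (P * A)ᵀ = P * A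

theorem moorePenrose_minNorm {σ : Type*} [Fintype σ] (A : Matrix σ (Fin n) ℝ)
    (P : Matrix (Fin n) σ ℝ) (hP : IsMoorePenrose A P) (b : σ → ℝ) :
    IsMinNormLeastSquares A b (P *ᵥ b) := by
  obtain ⟨h1, h2, h3, h4⟩ := hP
  have hAt : Aᵀ * (A * P) = Aᵀ := by
    rw [← h3, ← Matrix.transpose_mul, h1]
  have horth : Aᵀ *ᵥ (A *ᵥ (P *ᵥ b) - b) = 0 := by
    rw [Matrix.mulVec_sub, Matrix.mulVec_mulVec, Matrix.mulVec_mulVec, Matrix.mul_assoc, hAt,
      sub_self]
  have hpyth : ∀ x, sq (A *ᵥ x - b) = sq (A *ᵥ (P *ᵥ b) - b) + sq (A *ᵥ (x - P *ᵥ b)) := by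
    intro x
    have h5 : A *ᵥ x - b = (A *ᵥ (P *ᵥ b) - b) + A *ᵥ (x - P *ᵥ b) := by
      rw [Matrix.mulVec_sub]; abel
    have h6 : (A *ᵥ (P *ᵥ b) - b) ⬝ᵥ (A *ᵥ (x - P *ᵥ b)) = 0 := by
      rw [Matrix.dotProduct_mulVec, ← Matrix.mulVec_transpose, horth, zero_dotProduct]
    rw [h5, sq_add, h6]; ring
  refine ⟨fun x => ?_, fun x hx => ?_⟩
  · rw [hpyth x]
    have := sq_nonneg' (A *ᵥ (x - P *ᵥ b))
    linarith
  · have h5 : sq (A *ᵥ (x - P *ᵥ b)) = 0 := by
      have h6 := hx (P *ᵥ b)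
      rw [hpyth x] at h6
      exact le_antisymm (by linarith) (sq_nonneg' _)
    have h7 : A *ᵥ (x - P *ᵥ b) = 0 := sq_eq_zero h5
    have h8 : (P *ᵥ b) ⬝ᵥ (x - P *ᵥ b) = 0 := by
      have h9 : (P * A)ᵀ *ᵥ (P *ᵥ b) = P *ᵥ b := by
        rw [h4, Matrix.mulVec_mulVec, h2]
      have h11 : ∀ u : Fin n → ℝ, ((P * A)ᵀ *ᵥ (P *ᵥ b)) ⬝ᵥ u = (P *ᵥ b) ⬝ᵥ (P *ᵥ (A *ᵥ u)) := by
        intro u
        rw [Matrix.mulVec_transpose, ← Matrix.dotProduct_mulVec, ← Matrix.mulVec_mulVec]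
      have h12 := h11 (x - P *ᵥ b)
      rw [h9, h7, Matrix.mulVec_zero, dotProduct_zero] at h12
      exact h12
    have h10 : x = P *ᵥ b + (x - P *ᵥ b) := by abel
    rw [h10, sq_add, h8]
    have := sq_nonneg' (x - P *ᵥ b)
    linarith

end Pool.Agent.R944.Tysz
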