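import Pool.Agent.R944.Tysz.Det

/-!
# Linear systems with equations `x_i = 1` and `x_i + x_j = x_k`: small solutions
-/

set_option autoImplicit false

open Finset

namespace Pool.Agent.R944.Tysz

variable {n : ℕ}

/-- sum of the positive entries -/
def posSum {m : ℕ} (a : Fin m → ℤ) : ℤ := ∑ j, max (a j) 0

/-- sum of the absolute values of the negative entries -/
def negSum {m : ℕ} (a : Fin m → ℤ) : ℤ := ∑ j, max (-a j) 0

/-- a row and a right-hand side like those of `x_i + x_j = x_k` or of `x_i = 1` -/
def Good {m : ℕ} (a : Fin m → ℤ) (b : ℤ) : Prop :=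
  (posSum a ≤ 2 ∧ negSum a ≤ 2 ∧ b = 0) ∨ (posSum a ≤ 1 ∧ negSum a ≤ 0 ∧ b = 1)

theorem posSum_nonneg {m : ℕ} (a : Fin m → ℤ) : 0 ≤ posSum a :=
  Finset.sum_nonneg fun _ _ => le_max_right _ _

theorem posSum_comp_le {m : ℕ} (a : Fin n → ℤ) (g : Fin m → Fin n) (hg : Function.Injective g) :
    posSum (fun j => a (g j)) ≤ posSum a := by
  unfold posSum
  rw [← Finset.sum_image (f := fun k => max (a k) 0) (g := g) (s := Finset.univ)
    (fun x _ y _ h => hg h)]
  exact Finset.sum_le_sum_of_subset_of_nonneg (Finset.subset_univ _)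
    fun _ _ _ => le_max_right _ _

theorem negSum_comp_le {m : ℕ} (a : Fin n → ℤ) (g : Fin m → Fin n) (hg : Function.Injective g) :
    negSum (fun j => a (g j)) ≤ negSum a :=
  posSum_comp_le (fun k => -a k) g hg

/-- bound for the minors, once a unit row is present -/
theorem minor_bound {r : ℕ} (a : Fin r → Fin n → ℤ) (b : Fin r → ℤ)
    (hgood : ∀ i, Good (a i) (b i)) (i0 : Fin r) (h0 : b i0 = 1) (g : Fin r → Fin n) :
    |(Matrix.of fun i j => a i (g j)).det| ≤ 2 ^ (r - 1) := by
  by_cases hg : Function.Injective g
  · have h1 : |(Matrix.of fun i j => a i (g j)).det| ≤ ∏ i, (if i = i0 then (1 : ℤ) else 2) := by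
      apply abs_det_le_prod_int
      · intro i
        have h2 := posSum_comp_le (a i) g hg
        unfold posSum at h2
        simp only [Matrix.of_apply]
        rcases hgood i with h | h
        · have : i ≠ i0 := fun hi => by rw [hi, h0] at h; exact absurd h.2.2 one_ne_zero
          rw [if_neg this]
          exact le_trans h2 h.1
        · have h3 := h.1
          unfold posSum at h3
          split_ifs
          · exact le_trans h2 h3
          · linarith
      · intro i
        have h2 := negSum_comp_le (a i) g hg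
        unfold negSum at h2
        simp only [Matrix.of_apply]
        rcases hgood i with h | h
        · have : i ≠ i0 := fun hi => by rw [hi, h0] at h; exact absurd h.2.2 one_ne_zero
          rw [if_neg this]
          exact le_trans h2 h.2.1
        · have h3 := h.2.1
          unfold negSum at h3
          split_ifs
          · linarith
          · linarith
    refine le_trans h1 (le_of_eq ?_)
    rw [← Finset.mul_prod_erase _ _ (Finset.mem_univ i0), if_pos rfl, one_mul,
      Finset.prod_congr rfl (g := fun _ => (2 : ℤ)) (fun i hi => if_neg (Finset.ne_of_mem_erase hi)),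
      Finset.prod_const, Finset.card_erase_of_mem (Finset.mem_univ _), Finset.card_univ,
      Fintype.card_fin]
  · rw [Function.Injective] at hg
    push Not at hg
    obtain ⟨j, k, hjk, hne⟩ := hg
    rw [Matrix.det_zero_of_column_eq hne (fun i => by simp [hjk])]
    simp

/-- bound for the Cramer numerators, once a unit row is present -/
theorem cramer_bound {r : ℕ} (a : Fin r → Fin n → ℤ) (b : Fin r → ℤ)
    (hgood : ∀ i, Good (a i) (b i)) (i0 : Fin r) (h0 : b i0 = 1) (g : Fin r → Fin n)
    (hg : Function.Injective g) (j : Fin r) :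
    |((Matrix.of fun i j => a i (g j)).updateCol j b).det| ≤ 2 ^ (r - 1) := by
  have hneg : ((Matrix.of fun i j => a i (g j)).updateCol j b).det =
      -((Matrix.of fun i j => a i (g j)).updateCol j (fun i => -b i)).det := by
    have h1 : (fun i => -b i) = (-1 : ℤ) • b := by funext i; simp
    rw [h1, Matrix.det_updateCol_smul]; ring
  rw [hneg, abs_neg]
  have hpos : ∀ i, ∑ k, max (((Matrix.of fun i j => a i (g j)).updateCol j
      (fun i => -b i)) i k) 0 ≤ posSum (a i) := by
    intro i
    have h2 := posSum_comp_le (a i) g hg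
    refine le_trans (Finset.sum_le_sum fun k _ => ?_) h2
    rw [Matrix.updateCol_apply]
    split_ifs with hk
    · have hb : 0 ≤ b i := by rcases hgood i with h | h <;> rw [h.2.2]; norm_num
      rw [max_eq_right (by linarith)]
      exact le_max_right _ _
    · exact le_refl _
  have hng : ∀ i, ∑ k, max (-((Matrix.of fun i j => a i (g j)).updateCol j
      (fun i => -b i)) i k) 0 ≤ negSum (a i) + b i := by
    intro i
    have hb : 0 ≤ b i := by rcases hgood i with h | h <;> rw [h.2.2]; norm_num
    have h2 := negSum_comp_le (a i) g hg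
    have h3 : ∑ k, max (-((Matrix.of fun i j => a i (g j)).updateCol j
        (fun i => -b i)) i k) 0 ≤ ∑ k, (max (-a i (g k)) 0 + if k = j then b i else 0) := by
      refine Finset.sum_le_sum fun k _ => ?_
      rw [Matrix.updateCol_apply]
      split_ifs with hk
      · rw [neg_neg, max_eq_left hb]
        have := le_max_right (-a i (g k)) 0
        linarith
      · simp
    rw [Finset.sum_add_distrib, Finset.sum_ite_eq' Finset.univ j, if_pos (Finset.mem_univ _)] at h3
    unfold negSum at *
    linarith
  have h1 : |((Matrix.of fun i j => a i (g j)).updateCol j (fun i => -b i)).det| ≤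
      ∏ i, (if i = i0 then (1 : ℤ) else 2) := by
    apply abs_det_le_prod_int
    · intro i
      refine le_trans (hpos i) ?_
      rcases hgood i with h | h
      · have : i ≠ i0 := fun hi => by rw [hi, h0] at h; exact absurd h.2.2 one_ne_zero
        rw [if_neg this]
        exact h.1
      · split_ifs
        · exact h.1
        · linarith [h.1]
    · intro i
      refine le_trans (hng i) ?_
      rcases hgood i with h | h
      · have : i ≠ i0 := fun hi => by rw [hi, h0] at h; exact absurd h.2.2 one_ne_zero
        rw [if_neg this, h.2.2]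
        linarith [h.2.1]
      · rw [h.2.2]
        split_ifs
        · linarith [h.2.1]
        · linarith [h.2.1]
  refine le_trans h1 (le_of_eq ?_)
  rw [← Finset.mul_prod_erase _ _ (Finset.mem_univ i0), if_pos rfl, one_mul,
    Finset.prod_congr rfl (g := fun _ => (2 : ℤ)) (fun i hi => if_neg (Finset.ne_of_mem_erase hi)),
    Finset.prod_const, Finset.card_erase_of_mem (Finset.mem_univ _), Finset.card_univ,
    Fintype.card_fin]

/-! ### rows and columns of a maximal nonzero minor -/

theorem exists_rows {K : Type*} [Field K] {ι : Type*} (v : ι → Fin n → K) :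
    ∃ (r : ℕ) (f : Fin r → ι), LinearIndependent K (fun i => v (f i)) ∧
      Submodule.span K (Set.range fun i => v (f i)) = Submodule.span K (Set.range v) := by
  obtain ⟨κ, a, _, hspan, hli⟩ := exists_linearIndependent' K v
  have : Finite κ := hli.finite
  have : Fintype κ := Fintype.ofFinite κ
  let e := Fintype.equivFin κ
  refine ⟨Fintype.card κ, fun i => a (e.symm i), ?_, ?_⟩
  · exact hli.comp e.symm e.symm.injective
  · rw [← hspan]
    congr 1
    ext w
    constructor
    · rintro ⟨i, rfl⟩; exact ⟨e.symm i, rfl⟩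
    · rintro ⟨k, rfl⟩; exact ⟨e k, by simp⟩

theorem exists_cols {K : Type*} [Field K] {r : ℕ} (B : Matrix (Fin r) (Fin n) K)
    (hB : LinearIndependent K (fun i => B i)) :
    ∃ g : Fin r → Fin n, (Matrix.of fun i j => B i (g j)).det ≠ 0 := by
  obtain ⟨r', g, hli, hspan⟩ := exists_rows (n := r) (K := K) (fun j : Fin n => fun i => B i j)
  have hrank : B.rank = r := by
    have := LinearIndependent.rank_matrix (M := B) hB
    simpa using this
  have h1 : B.rank = Module.finrank K (Submodule.span K (Set.range B.col)) :=
    Matrix.rank_eq_finrank_span_cols B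
  have h2 : Module.finrank K (Submodule.span K (Set.range fun i => (fun j : Fin n => fun i => B i j) (g i)))
      = r' := by
    rw [finrank_span_eq_card hli, Fintype.card_fin]
  have h3 : r' = r := by
    have h5 : Module.finrank K (Submodule.span K (Set.range B.col)) = r := h1.symm.trans hrank
    have h6 : Module.finrank K (Submodule.span K (Set.range fun j : Fin n => fun i => B i j)) = r :=
      h5
    rw [← hspan] at h6
    exact h2.symm.trans h6
  subst h3
  refine ⟨g, ?_⟩
  have h4 : IsUnit (Matrix.of fun i j => B i (g j)) := by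
    rw [← Matrix.linearIndependent_cols_iff_isUnit]
    exact hli
  exact ((Matrix.isUnit_iff_isUnit_det _).1 h4).ne_zero

/-- Reduction of a consistent integer system to `r` independent rows. -/
theorem reduce {ι : Type*} (a : ι → Fin n → ℤ) (b : ι → ℤ) (x : Fin n → ℂ)
    (hx : ∀ e, ∑ k, (a e k : ℂ) * x k = b e) :
    ∃ (r : ℕ) (f : Fin r → ι) (g : Fin r → Fin n), r ≤ n ∧
      (Matrix.of fun i j => a (f i) (g j)).det ≠ 0 ∧
      ∀ y : Fin n → ℚ, (∀ i, ∑ k, (a (f i) k : ℚ) * y k = b (f i)) →
        ∀ e, ∑ k, (a e k : ℚ) * y k = b e := by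
  obtain ⟨r, f, hli, hspan⟩ := exists_rows (K := ℚ) (fun e k => (a e k : ℚ))
  obtain ⟨g, hg⟩ := exists_cols (Matrix.of fun i k => (a (f i) k : ℚ)) hli
  refine ⟨r, f, g, ?_, ?_, ?_⟩
  · have := hli.fintype_card_le_finrank
    simpa using this
  · intro h
    apply hg
    have h1 : ((Matrix.of fun i j => a (f i) (g j)).map (Int.castRingHom ℚ)).det = 0 := by
      rw [← RingHom.mapMatrix_apply, ← RingHom.map_det, h]; simp
    rw [← h1]
    rfl
  · intro y hy e
    have hmem : (fun k => (a e k : ℚ)) ∈ Submodule.span ℚ (Set.range fun i => fun k => (a (f i) k : ℚ)) := by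
      rw [hspan]; exact Submodule.subset_span ⟨e, rfl⟩
    rw [Submodule.mem_span_range_iff_exists_fun] at hmem
    obtain ⟨c, hc⟩ := hmem
    have hc' : ∀ k, (a e k : ℚ) = ∑ i, c i * (a (f i) k : ℚ) := by
      intro k
      have := congrFun hc k
      rw [← this, Finset.sum_apply]
      simp
    have hb : (b e : ℚ) = ∑ i, c i * (b (f i) : ℚ) := by
      have h1 : ((b e : ℚ) : ℂ) = ((∑ i, c i * (b (f i) : ℚ) : ℚ) : ℂ) := by
        push_cast
        rw [← hx e]
        have h2 : ∀ k, (a e k : ℂ) = ∑ i, (c i : ℂ) * (a (f i) k : ℂ) := by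
          intro k
          have := congrArg (fun q : ℚ => (q : ℂ)) (hc' k)
          push_cast at this
          exact this
        simp_rw [h2, Finset.sum_mul]
        rw [Finset.sum_comm]
        refine Finset.sum_congr rfl fun i _ => ?_
        rw [← hx (f i), Finset.mul_sum]
        refine Finset.sum_congr rfl fun k _ => by ring
      exact_mod_cast h1
    rw [hb]
    simp_rw [hc', Finset.sum_mul]
    rw [Finset.sum_comm]
    refine Finset.sum_congr rfl fun i _ => ?_
    rw [← hy i, Finset.mul_sum]
    refine Finset.sum_congr rfl fun k _ => by ring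

/-- Cramer's rule on the columns `g`. -/
theorem cramer_sol {r : ℕ} (a : Fin r → Fin n → ℤ) (b : Fin r → ℤ) (g : Fin r → Fin n)
    (hg : Function.Injective g) :
    ∃ p : Fin n → ℤ, (∀ j, p (g j) = ((Matrix.of fun i j => a i (g j)).updateCol j b).det) ∧
      (∀ k, k ∉ Set.range g → p k = 0) ∧
      ∀ i, ∑ k, a i k * p k = (Matrix.of fun i j => a i (g j)).det * b i := by
  classical
  set A : Matrix (Fin r) (Fin r) ℤ := Matrix.of fun i j => a i (g j) with hA
  refine ⟨fun k => ∑ j, if g j = k then A.cramer b j else 0, ?_, ?_, ?_⟩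
  · intro j
    show (∑ j', if g j' = g j then A.cramer b j' else 0) = _
    rw [Finset.sum_eq_single j]
    · rw [if_pos rfl, Matrix.cramer_apply]
    · intro j' _ hj'
      rw [if_neg (fun h => hj' (hg h))]
    · intro h; exact absurd (Finset.mem_univ _) h
  · intro k hk
    refine Finset.sum_eq_zero fun j _ => ?_
    rw [if_neg (fun h => hk ⟨j, h⟩)]
  · intro i
    have h1 : ∑ k, a i k * ∑ j, (if g j = k then A.cramer b j else 0) =
        ∑ j, a i (g j) * A.cramer b j := by
      simp_rw [Finset.mul_sum]
      rw [Finset.sum_comm]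
      refine Finset.sum_congr rfl fun j _ => ?_
      rw [Finset.sum_eq_single (g j)]
      · rw [if_pos rfl]
      · intro k _ hk
        rw [if_neg (fun h => hk h.symm), mul_zero]
      · intro h; exact absurd (Finset.mem_univ _) h
    rw [h1]
    have h2 := congrFun (Matrix.mulVec_cramer A b) i
    simp only [Matrix.mulVec, dotProduct, Pi.smul_apply, smul_eq_mul] at h2
    exact h2

/-- **Main theorem on rational solutions.** -/
theorem rational_main {ι : Type*} (a : ι → Fin n → ℤ) (b : ι → ℤ) (x : Fin n → ℂ)
    (hx : ∀ e, ∑ k, (a e k : ℂ) * x k = b e) (hgood : ∀ e, Good (a e) (b e)) :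
    ∃ (D : ℤ) (p : Fin n → ℤ), D ≠ 0 ∧ |D| ≤ 2 ^ (n - 1) ∧ (∀ k, |p k| ≤ 2 ^ (n - 1)) ∧
      ∀ e, ∑ k, a e k * p k = D * b e := by
  obtain ⟨r, f, g, hr, hdet, hall⟩ := reduce a b x hx
  by_cases h0 : ∃ i, b (f i) = 1
  · obtain ⟨i0, hi0⟩ := h0
    have hginj : Function.Injective g := by
      intro j k hjk
      by_contra hne
      exact hdet (Matrix.det_zero_of_column_eq hne (fun i => by simp [hjk]))
    obtain ⟨p, hp1, hp2, hp3⟩ := cramer_sol (fun i => a (f i)) (fun i => b (f i)) g hginj
    have hpow : (2 : ℤ) ^ (r - 1) ≤ 2 ^ (n - 1) :=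
      pow_le_pow_right₀ (by norm_num) (Nat.sub_le_sub_right hr 1)
    refine ⟨(Matrix.of fun i j => a (f i) (g j)).det, p, hdet, ?_, ?_, ?_⟩
    · exact le_trans (minor_bound (fun i => a (f i)) (fun i => b (f i)) (fun i => hgood _) i0 hi0 g)
        hpow
    · intro k
      by_cases hk : k ∈ Set.range g
      · obtain ⟨j, rfl⟩ := hk
        rw [hp1]
        exact le_trans (cramer_bound (fun i => a (f i)) (fun i => b (f i)) (fun i => hgood _) i0 hi0
          g hginj j) hpow
      · rw [hp2 k hk]; simp
    · intro e
      have hD : ((Matrix.of fun i j => a (f i) (g j)).det : ℚ) ≠ 0 := by exact_mod_cast hdet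
      have h1 := hall (fun k => (p k : ℚ) / ((Matrix.of fun i j => a (f i) (g j)).det : ℚ)) ?_ e
      · have h2 : ∑ k, (a e k : ℚ) * (p k : ℚ) =
            ((Matrix.of fun i j => a (f i) (g j)).det : ℚ) * b e := by
          rw [← h1, Finset.mul_sum]
          refine Finset.sum_congr rfl fun k _ => ?_
          field_simp
        exact_mod_cast h2
      · intro i
        have h2 : ∑ k, (a (f i) k : ℚ) * (p k : ℚ) =
            ((Matrix.of fun i j => a (f i) (g j)).det : ℚ) * b (f i) := by
          exact_mod_cast hp3 i
        have h3 : ∑ k, (a (f i) k : ℚ) * ((p k : ℚ) / ((Matrix.of fun i j => a (f i) (g j)).det : ℚ))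
            = (∑ k, (a (f i) k : ℚ) * (p k : ℚ)) / ((Matrix.of fun i j => a (f i) (g j)).det : ℚ) := by
          rw [Finset.sum_div]
          refine Finset.sum_congr rfl fun k _ => by ring
        rw [h3, h2]
        field_simp
  · push Not at h0
    have hb0 : ∀ i, b (f i) = 0 := by
      intro i
      rcases hgood (f i) with h | h
      · exact h.2.2
      · exact absurd h.2.2 (h0 i)
    refine ⟨1, fun _ => 0, one_ne_zero, ?_, ?_, ?_⟩
    · rw [abs_one]; exact one_le_pow₀ (by norm_num)
    · intro k; simp
    · intro e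
      have h1 := hall (fun _ => 0) (fun i => by simp [hb0 i]) e
      have h2 : (0 : ℚ) = b e := by simpa using h1
      have h3 : b e = 0 := by exact_mod_cast h2.symm
      simp [h3]

/-! ### the equations -/

/-- coefficient vector of `x_i` -/
def rowU (i : Fin n) (k : Fin n) : ℤ := if k = i then 1 else 0

/-- coefficient vector of `x_i + x_j - x_k` -/
def rowA (i j k : Fin n) (l : Fin n) : ℤ :=
  (if l = i then 1 else 0) + (if l = j then 1 else 0) - (if l = k then 1 else 0)

theorem good_rowU (i : Fin n) : Good (rowU i) 1 := by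
  right
  refine ⟨?_, ?_, rfl⟩
  · unfold posSum rowU
    refine le_of_eq ?_
    rw [Finset.sum_eq_single i]
    · simp
    · intro k _ hk; simp [hk]
    · intro h; exact absurd (Finset.mem_univ _) h
  · unfold negSum rowU
    refine le_of_eq ?_
    refine Finset.sum_eq_zero fun k _ => ?_
    split_ifs <;> simp

theorem sum_ind (i : Fin n) : ∑ l : Fin n, (if l = i then (1 : ℤ) else 0) = 1 := by
  simp

theorem good_rowA (i j k : Fin n) : Good (rowA i j k) 0 := by
  left
  refine ⟨?_, ?_, rfl⟩
  · unfold posSum rowA
    have : ∀ l : Fin n, max ((if l = i then (1 : ℤ) else 0) + (if l = j then 1 else 0) -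
        (if l = k then 1 else 0)) 0 ≤ (if l = i then (1 : ℤ) else 0) + (if l = j then 1 else 0) := by
      intro l
      split_ifs <;> simp
    refine le_trans (Finset.sum_le_sum fun l _ => this l) ?_
    rw [Finset.sum_add_distrib, sum_ind, sum_ind]
    norm_num
  · unfold negSum rowA
    have : ∀ l : Fin n, max (-((if l = i then (1 : ℤ) else 0) + (if l = j then 1 else 0) -
        (if l = k then 1 else 0))) 0 ≤ (if l = k then (1 : ℤ) else 0) := by
      intro l
      split_ifs <;> simp
    refine le_trans (Finset.sum_le_sum fun l _ => this l) ?_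
    rw [sum_ind]
    norm_num

theorem eval_rowU {R : Type*} [CommRing R] (i : Fin n) (y : Fin n → R) :
    ∑ k, ((rowU i k : ℤ) : R) * y k = y i := by
  unfold rowU
  rw [Finset.sum_eq_single i]
  · simp
  · intro k _ hk; simp [hk]
  · intro h; exact absurd (Finset.mem_univ _) h

theorem eval_rowA {R : Type*} [CommRing R] (i j k : Fin n) (y : Fin n → R) :
    ∑ l, ((rowA i j k l : ℤ) : R) * y l = y i + y j - y k := by
  unfold rowA
  have h : ∀ c : Fin n, ∑ l, (if l = c then (1 : R) else 0) * y l = y c := by
    intro c
    simp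
  push_cast
  simp_rw [sub_mul, add_mul]
  rw [Finset.sum_sub_distrib, Finset.sum_add_distrib]
  rw [h, h, h]

end Pool.Agent.R944.Tysz
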